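import Pool.Agent.DNC.Final

/-!
# The number of D(n)-quadruples up to X, n not a perfect square

It is `O(X ^ (1/5 + ε))`.  For square `n` it is at least a constant times `X ^ (1/3)`.
-/

namespace Pool.Agent.Results.MP_603295_nt.CountFifth

theorem result : ∀ n : ℤ, ¬ IsSquare n → ∀ ε : ℝ, 0 < ε → ∃ C : ℝ, ∀ X : ℕ, 1 ≤ X →
    (({s : Finset ℕ | s.card = 4 ∧ (∀ a ∈ s, 0 < a ∧ a ≤ X) ∧
      (∀ a ∈ s, ∀ b ∈ s, a ≠ b → IsSquare ((a : ℤ) * (b : ℤ) + n))}.ncard : ℕ) : ℝ) ≤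
      C * (X : ℝ) ^ (1 / 5 + ε) :=
  fun _ hn _ hε => Pool.Agent.DNC.quad_count hn hε

end Pool.Agent.Results.MP_603295_nt.CountFifth
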