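import Pool.Agent.DN.Main2

/-!
# Every pair lies in only finitely many D(n)-quadruples, n not a perfect square

For square `n` this is false: for example `{k, 3 k}` is contained in infinitely many
`D(k²)`-quadruples (the regular ones).
-/

namespace Pool.Agent.Results.MP_603295_nt.PairFinite

theorem result : ∀ n : ℤ, ¬ IsSquare n → ∀ e f : ℕ, e ≠ f →
    {s : Finset ℕ | s.card = 4 ∧ (∀ a ∈ s, 0 < a) ∧
      (∀ a ∈ s, ∀ b ∈ s, a ≠ b → IsSquare ((a : ℤ) * (b : ℤ) + n)) ∧ e ∈ s ∧ f ∈ s}.Finite :=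
  fun _ hn _ _ hef => Pool.Agent.DN.pair_finite hn hef

end Pool.Agent.Results.MP_603295_nt.PairFinite
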