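import Pool.Agent.DQ.Quint

/-!
# Only finitely many D(n)-quintuples, n not a perfect square

For every integer `n` that is not a perfect square there are only finitely many `D(n)`-quintuples.
-/

namespace Pool.Agent.Results.MP_603295_nt.Quintuples

theorem result : ∀ n : ℤ, ¬ IsSquare n →
    {s : Finset ℕ | s.card = 5 ∧ (∀ a ∈ s, 0 < a) ∧
      (∀ a ∈ s, ∀ b ∈ s, a ≠ b → IsSquare ((a : ℤ) * (b : ℤ) + n))}.Finite :=
  fun _ hn => Pool.Agent.DQ.quint_finite hn

end Pool.Agent.Results.MP_603295_nt.Quintuples
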