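import Pool.Agent.DQ.Final

/-!
# The second and third elements of a D(n)-quadruple, n not a perfect square

For every integer `n` that is not a perfect square and every `ε > 0` there is a constant `C` such that
`a c ≤ C b ^ (4 + ε)` for all `D(n)`-quadruples `a < b < c < d`.  For square `n` this is false.
-/

namespace Pool.Agent.Results.MP_603295_nt.ThirdExponent

theorem result : ∀ n : ℤ, ¬ IsSquare n → ∀ ε : ℝ, 0 < ε → ∃ C : ℝ, ∀ a b c d : ℤ,
    0 < a → a < b → b < c → c < d →
    IsSquare (a * b + n) → IsSquare (a * c + n) → IsSquare (a * d + n) →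
    IsSquare (b * c + n) → IsSquare (b * d + n) → IsSquare (c * d + n) →
    (a : ℝ) * (c : ℝ) ≤ C * (b : ℝ) ^ (4 + ε) :=
  fun _ hn _ hε => Pool.Agent.DQ.third_exp hn hε

end Pool.Agent.Results.MP_603295_nt.ThirdExponent
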